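import Pool.Agent.H66.CeAlg

/-! Two classes of c.e. algebras with incomparable isomorphism relations. -/

namespace Pool.Agent.Results.MP_418eb4_lc.Incomp

open Pool.Agent.H66.Acc Pool.Agent.H37

theorem re_fin {α : Type} [Primcodable α] [Finite α] (p : α → Prop) : REPred p := by
  classical
  exact re_of_bool (fun a => decide (p a)) (CI.of_prim (Primrec.dom_finite _)) (by simp)

theorem ex {n k : ℕ} (R : Setoid (Fin n ⊕ Fin k)) : ∃ e, th n (Fin k) e = R :=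
  (idx (fun _ : Unit => R) (re_fin _)).elim fun f h => ⟨f (), h.2 ()⟩

theorem cnt0 {ι : Type} [Primcodable ι] (r : Setoid (Fin 1 ⊕ ι)) :
    cnt r ≤ 0 ↔ ∃ c, r (.inl 0) (.inr c) := by
  rw [Nat.le_zero, cnt, Set.ncard_eq_zero ((Set.finite_range _).subset (sub r)),
    Set.compl_empty_iff, Set.range_eq_univ]
  refine ⟨fun h => (h ⟦.inl 0⟧).imp fun c h => Quotient.exact h.symm, ?_⟩
  rintro ⟨c, hc⟩ ⟨i | d⟩
  exacts [⟨c, Subsingleton.elim 0 i ▸ (Quotient.sound hc).symm⟩, ⟨d, rfl⟩]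

theorem mono {f : ℕ → ℕ} (f1 : CI ∅ f) (f2 : ∀ x y, CIso 5 (Fin 0) x y ↔ CIso 1 (Fin 3) (f x) (f y))
    {a b : ℕ} (h : th 5 (Fin 0) a ≤ th 5 (Fin 0) b) {P : ℕ → Prop} (hP : REPred P)
    (inv : ∀ x y, CIso 1 (Fin 3) x y → (P x ↔ P y)) (ha : P (f a)) : P (f b) := by
  classical
  have r : REPred fun q : ℕ × (Fin 5 ⊕ Fin 0) × (Fin 5 ⊕ Fin 0) => th 5 _ a q.2.1 q.2.2 ∨
      th 5 _ b q.2.1 q.2.2 ∧ ∃ s, Kst q.1 s = true :=
    re_or (re_th (CI.const a) (by fun_prop) (by fun_prop)) (re_and (re_th (CI.const b)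
      (by fun_prop) (by fun_prop)) (re_of_nat (fun q s => Kst q.1 s) (by fun_prop) fun _ => Iff.rfl))
  obtain ⟨g, g1, g2⟩ := idx (fun x => if ∃ s, Kst x s = true then th 5 (Fin 0) b else th 5 (Fin 0) a)
    (r.of_eq fun q => by
      by_cases k : ∃ s, Kst q.1 s = true
      · rw [if_pos k]; exact ⟨fun k => k.elim (fun k => h k) (·.1), fun h => Or.inr ⟨h, k⟩⟩
      · rw [if_neg k]; simp [k])
  by_contra hb
  refine K_not_coRE ((REPred.comp' hP (f1.comp g1)).of_eq fun x => ?_)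
  have := g2 x
  split_ifs at this with k
  · simp [inv _ _ ((f2 (g x) b).1 (ciso_iff.2 (by simp [this]))), hb, k]
  · simp only [inv _ _ ((f2 (g x) a).1 (ciso_iff.2 (by simp [this]))), ha, k, not_false_eq_true]

open Classical in
noncomputable def pt (n p q r : Prop) : ℕ := (if n then 1 else 0) +
  min 2 ((if p then 1 else 0) + (if q then 1 else 0) + if r then 1 else 0)

theorem pt_lt {n p q r n' p' q' r' : Prop} (h0 : n → n') (h1 : p → p') (h2 : q → q') (h3 : r → r')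
    (t : (p → q → r) ∧ (p → r → q) ∧ (q → r → p))
    (k : ¬((n' → n) ∧ (p' → p) ∧ (q' → q) ∧ (r' → r))) : pt n p q r < pt n' p' q' r' := by
  unfold pt
  by_cases n <;> by_cases p <;> by_cases q <;> by_cases r <;> by_cases n' <;> by_cases p' <;>
    by_cases q' <;> by_cases r' <;> simp_all

noncomputable def pot (e : ℕ) : ℕ := pt (cnt (th 1 (Fin 3) e) ≤ 0) (th 1 (Fin 3) e (.inr 0) (.inr 1))
  (th 1 (Fin 3) e (.inr 0) (.inr 2)) (th 1 (Fin 3) e (.inr 1) (.inr 2))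

theorem pot_lt {a b : ℕ} (h0 : cnt (th 1 (Fin 3) a) ≤ 0 → cnt (th 1 (Fin 3) b) ≤ 0)
    (h : ∀ c d, th 1 (Fin 3) a (.inr c) (.inr d) → th 1 (Fin 3) b (.inr c) (.inr d))
    (hn : ¬CIso 1 (Fin 3) a b) : pot a < pot b := by
  have t : ∀ r : Setoid (Fin 1 ⊕ Fin 3), (r (.inr 0) (.inr 1) → r (.inr 0) (.inr 2) →
      r (.inr 1) (.inr 2)) ∧ (r (.inr 0) (.inr 1) → r (.inr 1) (.inr 2) → r (.inr 0) (.inr 2)) ∧
      (r (.inr 0) (.inr 2) → r (.inr 1) (.inr 2) → r (.inr 0) (.inr 1)) := fun r =>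
    ⟨fun h k => r.trans (r.symm h) k, r.trans, fun h k => r.trans h (r.symm k)⟩
  have k : ¬((cnt (th 1 (Fin 3) b) ≤ 0 → cnt (th 1 (Fin 3) a) ≤ 0) ∧
      (th 1 (Fin 3) b (.inr 0) (.inr 1) → th 1 (Fin 3) a (.inr 0) (.inr 1)) ∧
      (th 1 (Fin 3) b (.inr 0) (.inr 2) → th 1 (Fin 3) a (.inr 0) (.inr 2)) ∧
      (th 1 (Fin 3) b (.inr 1) (.inr 2) → th 1 (Fin 3) a (.inr 1) (.inr 2))) :=
    fun ⟨k0, k1, k2, k3⟩ => hn (ciso_iff.2 ⟨fun c d => ⟨h c d, by
      fin_cases c <;> fin_cases d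
      exacts [fun _ => Setoid.refl' _ _, k1, k2, fun k => Setoid.symm' _ (k1 (Setoid.symm' _ k)),
        fun _ => Setoid.refl' _ _, k3, fun k => Setoid.symm' _ (k2 (Setoid.symm' _ k)),
        fun k => Setoid.symm' _ (k3 (Setoid.symm' _ k)), fun _ => Setoid.refl' _ _]⟩, by
      have := cnt_le (th 1 (Fin 3) a); have := cnt_le (th 1 (Fin 3) b); omega⟩)
  exact pt_lt h0 (h 0 1) (h 0 2) (h 1 2) (t _) k

theorem result : ¬Red (CIso 1 (Fin 3)) (CIso 5 (Fin 0)) ∧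
    ¬Red (CIso 5 (Fin 0)) (CIso 1 (Fin 3)) := by
  constructor <;> rintro ⟨f, f1, f2⟩
  · let g : Fin 7 → Fin 1 ⊕ Fin 3 → ℕ := fun j => Sum.elim (fun _ => if j < 5 then 0 else 3)
      (![![0, 0, 0], ![0, 0, 1], ![0, 1, 0], ![0, 1, 1], ![0, 1, 2], ![0, 0, 0], ![0, 0, 1]] j)
    choose e he using fun j => ex (Setoid.ker (g j))
    obtain ⟨i, j, h1, h2⟩ := Fintype.exists_ne_map_eq_of_card_lt (fun j =>
      (⟨cnt (th 5 (Fin 0) (f (e j))), Nat.lt_succ_of_le (cnt_le _)⟩ : Fin 6)) (by simp)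
    obtain ⟨k1, k2⟩ := ciso_iff.1 ((f2 (e i) (e j)).2 (ciso_iff.2 ⟨fun c => c.elim0,
      congrArg Fin.val h2⟩))
    have k3 := cnt0 (th 1 (Fin 3) (e i))
    rw [k2, cnt0] at k3
    clear h2 k2
    rw [he, he] at k1 k3
    simp only [Setoid.ker_def] at k1 k3
    revert i j
    decide
  · let g : Fin 5 → Fin 5 ⊕ Fin 0 → Fin 5 := fun j => Sum.elim (min j) Fin.elim0
    choose e he using fun j => ex (Setoid.ker (g j))
    have c : ∀ j, cnt (th 5 (Fin 0) (e j)) = j + 1 := fun j => by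
      rw [he, cnt, Set.range_eq_empty, Set.compl_empty, Set.ncard_univ,
        Nat.card_congr (Setoid.quotientKerEquivRange _), Nat.card_eq_fintype_card]
      revert j
      decide
    have s : ∀ i j, i < j → pot (f (e j)) < pot (f (e i)) := fun i j h => by
      have l : th 5 (Fin 0) (e j) ≤ th 5 (Fin 0) (e i) := by
        rw [he, he]
        intro x y
        simp only [Setoid.ker_def]
        revert i j x y
        decide
      refine pot_lt (mono (.of_comp f1) f2 l (re_cnt CI.id' (CI.const 0)) fun x y k => by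
        rw [(ciso_iff.1 k).2]) (fun c d => mono (.of_comp f1) f2 l (re_th CI.id' (CI.const _)
        (CI.const _)) fun x y k => (ciso_iff.1 k).1 c d) fun k => ?_
      have := (ciso_iff.1 ((f2 _ _).2 k)).2
      rw [c, c] at this
      omega
    have := s 0 1 (by decide)
    have := s 1 2 (by decide)
    have := s 2 3 (by decide)
    have := s 3 4 (by decide)
    have : pot (f (e 0)) ≤ 3 := by unfold pot pt; split_ifs <;> omega
    omega

end Pool.Agent.Results.MP_418eb4_lc.Incomp
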